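import Mathlib

set_option autoImplicit false

open Set

namespace Pool.Agent.Results.MP_091ced_gt.SecondDerivedSetClosed

/-- **The second derived set of every subset of a `T₀`-space is closed.** Here Mathlib's
`derivedSet A` is the set of accumulation points of `A`, that is the set of all `x` that lie in the
closure of `A \ {x}`. -/
theorem result (X : Type*) [TopologicalSpace X] [T0Space X] (A : Set X) :
    IsClosed (derivedSet (derivedSet A)) := by
  rw [← closure_subset_iff_isClosed]
  intro x hx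
  by_contra hxn
  set D : Set X → Set X := derivedSet with hD
  have hmem : ∀ (B : Set X) (z : X), z ∈ D B ↔ z ∈ closure (B \ {z}) := fun B z => by
    rw [hD, mem_derivedSet, accPt_principal_iff_clusterPt, mem_closure_iff_clusterPt]
  -- an open `U` containing `x` with `U ∩ (D A \ {x}) = ∅`
  have hx1 : x ∉ closure (D A \ {x}) := fun h => hxn ((hmem _ _).2 h)
  rw [mem_closure_iff] at hx1
  push Not at hx1
  obtain ⟨U, hU, hxU, hUe⟩ := hx1
  have hU1 : ∀ z ∈ U, z ∈ D A → z = x := by
    intro z hz hzA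
    by_contra hne
    have : z ∈ U ∩ (D A \ {x}) := ⟨hz, hzA, hne⟩
    rw [hUe] at this
    exact this
  -- a point `y` of `U` in the second derived set
  obtain ⟨y, hyU, hyD⟩ := mem_closure_iff.1 hx U hU hxU
  have hyx : y ≠ x := fun h => hxn (h ▸ hyD)
  -- every open set containing `y` contains `x`, and `x ∈ D A`
  have hy1 : ∀ W : Set X, IsOpen W → y ∈ W → x ∈ W ∧ x ∈ D A := by
    intro W hW hyW
    obtain ⟨z, ⟨hzW, hzU⟩, hzA, _⟩ := mem_closure_iff.1 ((hmem _ _).1 hyD) (W ∩ U)
      (hW.inter hU) ⟨hyW, hyU⟩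
    have := hU1 z hzU hzA
    subst this
    exact ⟨hzW, hzA⟩
  -- an open `V` containing `y` with `V ∩ (A \ {y}) = ∅`
  have hy2 : y ∉ closure (A \ {y}) := fun h => hyx (hU1 y hyU ((hmem _ _).2 h))
  rw [mem_closure_iff] at hy2
  push Not at hy2
  obtain ⟨V, hV, hyV, hVe⟩ := hy2
  have hxV := hy1 V hV hyV
  -- every open set containing `x` contains `y`
  have hx2 : ∀ W : Set X, IsOpen W → x ∈ W → y ∈ W := by
    intro W hW hxW
    obtain ⟨z, ⟨hzW, hzV⟩, hzA, _⟩ := mem_closure_iff.1 ((hmem _ _).1 hxV.2) (W ∩ V)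
      (hW.inter hV) ⟨hxW, hxV.1⟩
    by_contra hyW
    have : z ∈ V ∩ (A \ {y}) := ⟨hzV, hzA, fun h => hyW (h ▸ hzW)⟩
    rw [hVe] at this
    exact this
  apply hyx
  refine (inseparable_iff_forall_isOpen.2 fun W hW => ⟨fun h => (hy1 W hW h).1, hx2 W hW⟩).eq

end Pool.Agent.Results.MP_091ced_gt.SecondDerivedSetClosed
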